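import Mathlib
import Pool.Agent.Results.MP_bab9cd_gt.CompactTimesMetrizable

/-! # Base resolvability and clopen embeddings; a topological group none of whose open subspaces is
base resolvable -/

set_option autoImplicit false

open TopologicalSpace Set

namespace Pool.Agent.Y973.BR

open Pool.Agent.Results.MP_bab9cd_gt.CompactTimesMetrizable

/-- Every base of `X` is the union of two disjoint bases of `X`. -/
def BaseResolvable (X : Type) [TopologicalSpace X] : Prop :=
  ∀ B : Set (Set X), IsTopologicalBasis B → ∃ B₀ B₁ : Set (Set X), B₀ ∪ B₁ = B ∧ B₀ ∩ B₁ = ∅ ∧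
    IsTopologicalBasis B₀ ∧ IsTopologicalBasis B₁

/-- Clopen subspaces of base resolvable spaces are base resolvable. -/
theorem of_clopenEmbedding {Z U : Type} [TopologicalSpace Z] [TopologicalSpace U] {φ : Z → U}
    (h : Topology.IsOpenEmbedding φ) (hc : IsClosed (range φ)) (hU : BaseResolvable U) :
    BaseResolvable Z := by
  intro B hB
  let B' : Set (Set U) := {O | (∃ b ∈ B, φ '' b = O) ∨ (IsOpen O ∧ Disjoint O (range φ))}
  have hB' : IsTopologicalBasis B' := by
    refine isTopologicalBasis_of_isOpen_of_nhds ?_ ?_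
    · rintro O (⟨b, hb, rfl⟩ | ⟨hO, -⟩)
      · exact h.isOpenMap _ (hB.isOpen hb)
      · exact hO
    · intro x O hx hO
      by_cases hxr : x ∈ range φ
      · obtain ⟨z, rfl⟩ := hxr
        obtain ⟨b, hb, hzb, hbO⟩ := hB.exists_subset_of_mem_open (show z ∈ φ ⁻¹' O from hx)
          (hO.preimage h.continuous)
        exact ⟨φ '' b, Or.inl ⟨b, hb, rfl⟩, mem_image_of_mem _ hzb, image_subset_iff.2 hbO⟩
      · refine ⟨O ∩ (range φ)ᶜ, Or.inr ⟨hO.inter hc.isOpen_compl, ?_⟩, ⟨hx, hxr⟩,
          inter_subset_left⟩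
        exact disjoint_compl_left.mono_left inter_subset_right
  obtain ⟨A₀, A₁, hA, hd, h0, h1⟩ := hU B' hB'
  have key : ∀ A ⊆ B', IsTopologicalBasis A → IsTopologicalBasis {b | b ∈ B ∧ φ '' b ∈ A} := by
    intro A hAB hA
    refine isTopologicalBasis_of_isOpen_of_nhds (fun b hb => hB.isOpen hb.1) ?_
    intro z O hz hO
    obtain ⟨b', hb', hzb', hb'O⟩ := hA.exists_subset_of_mem_open (mem_image_of_mem φ hz)
      (h.isOpenMap _ hO)
    rcases hAB hb' with ⟨b, hb, rfl⟩ | ⟨-, hdis⟩
    · refine ⟨b, ⟨hb, hb'⟩, ?_, ?_⟩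
      · exact (h.injective.mem_set_image).1 hzb'
      · exact (image_subset_image_iff h.injective).1 hb'O
    · exact absurd (mem_range_self z) (disjoint_left.1 hdis hzb')
  refine ⟨{b | b ∈ B ∧ φ '' b ∈ A₀}, {b | b ∈ B ∧ φ '' b ∈ A₁}, ?_, ?_,
    key A₀ (hA ▸ subset_union_left) h0, key A₁ (hA ▸ subset_union_right) h1⟩
  · ext b
    constructor
    · rintro (h | h) <;> exact h.1
    · intro hb
      have h2 : φ '' b ∈ A₀ ∪ A₁ := hA ▸ Or.inl ⟨b, hb, rfl⟩
      rcases h2 with h2 | h2
      · exact Or.inl ⟨hb, h2⟩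
      · exact Or.inr ⟨hb, h2⟩
  · rw [eq_empty_iff_forall_notMem]
    rintro b ⟨⟨-, hb0⟩, ⟨-, hb1⟩⟩
    have h2 : φ '' b ∈ A₀ ∩ A₁ := ⟨hb0, hb1⟩
    rw [hd] at h2
    exact h2

/-! ### Basic clopen sets of `K × Y` are copies of `K × Y` -/

/-- the basic clopen set -/
def Cyl (F : Finset S) (k : K) (m : ℕ) (y : Y) : Set (K × Y) :=
  {p | (∀ x ∈ F, p.1 x = k x) ∧ ∀ j < m, p.2 j = y j}

theorem isClopen_Cyl (F : Finset S) (k : K) (m : ℕ) (y : Y) : IsClopen (Cyl F k m y) := by
  have : Cyl F k m y = (⋂ x ∈ F, (fun p : K × Y => p.1 x) ⁻¹' {k x}) ∩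
      ⋂ j ∈ Finset.range m, (fun p : K × Y => p.2 j) ⁻¹' {y j} := by
    ext p
    simp [Cyl]
  rw [this]
  refine IsClopen.inter ?_ ?_
  · exact isClopen_biInter_finset fun x _ => (isClopen_discrete _).preimage (by fun_prop)
  · exact isClopen_biInter_finset fun x _ => (isClopen_discrete _).preimage (by fun_prop)

theorem isBasis_clopen : IsTopologicalBasis {s : Set (K × Y) | IsClopen s} := by
  refine isTopologicalBasis_of_isOpen_of_nhds (fun s hs => hs.isOpen) ?_
  rintro ⟨k, y⟩ O hp hO
  obtain ⟨F, m, hFm⟩ := exists_basic hO hp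
  exact ⟨Cyl F k m y, isClopen_Cyl F k m y, ⟨fun _ _ => rfl, fun _ _ => rfl⟩,
    fun p hp => hFm p hp.1 hp.2⟩

theorem exists_sigma (F : Finset S) : Nonempty ({x : S // x ∉ F} ≃ S) := by
  have h := Cardinal.mk_compl_finset_of_infinite F
  exact Cardinal.eq.1 h

open Classical in
/-- the map onto the basic clopen set -/
noncomputable def phi (F : Finset S) (σ : {x : S // x ∉ F} ≃ S) (k : K) (m : ℕ) (y : Y)
    (p : K × Y) : K × Y :=
  (fun x => if h : x ∈ F then k x else p.1 (σ ⟨x, h⟩),
    fun j => if j < m then y j else p.2 (j - m))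

/-- its left inverse -/
def psi (F : Finset S) (σ : {x : S // x ∉ F} ≃ S) (m : ℕ) (p : K × Y) : K × Y :=
  (fun s => p.1 (σ.symm s).1, fun j => p.2 (j + m))

theorem psi_phi (F : Finset S) (σ : {x : S // x ∉ F} ≃ S) (k : K) (m : ℕ) (y : Y) (p : K × Y) :
    psi F σ m (phi F σ k m y p) = p := by
  refine Prod.ext ?_ ?_
  · funext s
    simp only [psi, phi]
    rw [dif_neg (σ.symm s).2]
    simp
  · funext j
    simp [psi, phi]

theorem phi_psi (F : Finset S) (σ : {x : S // x ∉ F} ≃ S) (k : K) (m : ℕ) (y : Y) (p : K × Y)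
    (hp : p ∈ Cyl F k m y) : phi F σ k m y (psi F σ m p) = p := by
  refine Prod.ext ?_ ?_
  · funext x
    simp only [psi, phi]
    by_cases hx : x ∈ F
    · rw [dif_pos hx, hp.1 x hx]
    · rw [dif_neg hx]
      simp
  · funext j
    simp only [psi, phi]
    by_cases hj : j < m
    · rw [if_pos hj, hp.2 j hj]
    · rw [if_neg hj, Nat.sub_add_cancel (not_lt.1 hj)]

theorem phi_mem (F : Finset S) (σ : {x : S // x ∉ F} ≃ S) (k : K) (m : ℕ) (y : Y) (p : K × Y) :
    phi F σ k m y p ∈ Cyl F k m y := by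
  refine ⟨fun x hx => ?_, fun j hj => ?_⟩
  · simp [phi, hx]
  · simp [phi, hj]

theorem continuous_phi (F : Finset S) (σ : {x : S // x ∉ F} ≃ S) (k : K) (m : ℕ) (y : Y) :
    Continuous (phi F σ k m y) := by
  refine Continuous.prodMk (continuous_pi fun x => ?_) (continuous_pi fun j => ?_)
  · by_cases hx : x ∈ F
    · simp only [hx, dif_pos]
      exact continuous_const
    · simp only [hx, dif_neg, not_false_eq_true]
      exact (continuous_apply _).comp continuous_fst
  · by_cases hj : j < m
    · simp only [hj, if_true]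
      exact continuous_const
    · simp only [hj, if_false]
      exact (continuous_apply _).comp continuous_snd

theorem continuous_psi (F : Finset S) (σ : {x : S // x ∉ F} ≃ S) (m : ℕ) :
    Continuous (psi F σ m) := by
  refine Continuous.prodMk (continuous_pi fun x => ?_) (continuous_pi fun j => ?_)
  · exact (continuous_apply _).comp continuous_fst
  · exact (continuous_apply _).comp continuous_snd

/-- **No nonempty open subspace of `K × Y` is base resolvable.** -/
theorem no_open_resolvable (U : Set (K × Y)) (hU : IsOpen U) (hne : U.Nonempty) :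
    ¬ BaseResolvable U := by
  intro hres
  obtain ⟨⟨k, y⟩, hp⟩ := hne
  obtain ⟨F, m, hFm⟩ := exists_basic hU hp
  have hCU : Cyl F k m y ⊆ U := fun p hp => hFm p hp.1 hp.2
  obtain ⟨σ⟩ := exists_sigma F
  let φ : K × Y → U := fun p => ⟨phi F σ k m y p, hCU (phi_mem F σ k m y p)⟩
  have hφ : Continuous φ := (continuous_phi F σ k m y).subtype_mk _
  have hψ : Continuous (fun u : U => psi F σ m u.1) :=
    (continuous_psi F σ m).comp continuous_subtype_val
  have hemb : Topology.IsEmbedding φ :=
    Function.LeftInverse.isEmbedding (f := fun u : U => psi F σ m u.1) (g := φ)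
      (fun p => psi_phi F σ k m y p) hψ hφ
  have hrange : range φ = Subtype.val ⁻¹' (Cyl F k m y) := by
    ext u
    constructor
    · rintro ⟨p, rfl⟩
      exact phi_mem F σ k m y p
    · intro hu
      exact ⟨psi F σ m u.1, Subtype.ext (phi_psi F σ k m y u.1 hu)⟩
  have hclopen : IsClopen (range φ) := by
    rw [hrange]
    exact (isClopen_Cyl F k m y).preimage continuous_subtype_val
  have h := of_clopenEmbedding (φ := φ) ⟨hemb, hclopen.isOpen⟩ hclopen.isClosed hres
  exact not_resolvable (h Bs isBasis_Bs)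

/-! ### The group structure -/

/-- the discrete factor as a set of functions -/
def eD : D ≃ (Finset S → Bool) := ⟨D.f, D.mk, fun _ => rfl, fun _ => rfl⟩

instance : AddCommGroup D := eD.addCommGroup

theorem add_self_D (x : D) : x + x = 0 := by
  have h : x + x = eD.symm (eD x + eD x) := rfl
  have h0 : (0 : D) = eD.symm 0 := rfl
  rw [h, h0]
  congr 1
  funext v
  show (eD x v) + (eD x v) = 0
  generalize eD x v = b
  cases b <;> rfl

theorem add_self_prod (x : K × Y) : x + x = 0 := by
  refine Prod.ext ?_ ?_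
  · funext s
    show x.1 s + x.1 s = 0
    generalize x.1 s = b
    cases b <;> rfl
  · funext j
    exact add_self_D _

instance : IsTopologicalAddGroup D where
  continuous_add := continuous_of_discreteTopology
  continuous_neg := continuous_of_discreteTopology

end Pool.Agent.Y973.BR
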